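import Pool.Agent.Y174.SD.Stm

/-!
# Project SD (helper174), job SD-POINT

A point of a finitely generated algebra at which finitely many elements take constant values.
-/

set_option autoImplicit false
set_option linter.style.haveILetI false

namespace Pool.Agent.Y664.SD

open Pool.Agent.Y174.SD
open scoped TensorProduct

/-- Nullstellensatz: a point at which a nonzero element does not vanish. -/
theorem exists_point (k A : Type) [Field k] [IsAlgClosed k] [CommRing A] [IsDomain A] [Algebra k A]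
    [Algebra.FiniteType k A] {a : A} (ha : a ≠ 0) : ∃ p : A →ₐ[k] k, p a ≠ 0 := by
  have hJ : IsJacobsonRing A := isJacobsonRing_of_finiteType (A := k)
  have h1 : (⊥ : Ideal A).jacobson = ⊥ := hJ.out (Ideal.isPrime_bot.isRadical)
  have h2 : a ∉ (⊥ : Ideal A).jacobson := by
    rw [h1, Ideal.mem_bot]
    exact ha
  have h3 : ∃ m : Ideal A, m.IsMaximal ∧ a ∉ m := by
    by_contra hcon
    push Not at hcon
    apply h2
    unfold Ideal.jacobson
    rw [Ideal.mem_sInf]
    intro m hm
    exact hcon m hm.2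
  obtain ⟨m, hm, ham⟩ := h3
  letI : Field (A ⧸ m) := Ideal.Quotient.field m
  haveI : Algebra.FiniteType k (A ⧸ m) :=
    Algebra.FiniteType.of_surjective (Ideal.Quotient.mkₐ k m) (Ideal.Quotient.mkₐ_surjective k m)
  haveI : Module.Finite k (A ⧸ m) := finite_of_finite_type_of_isJacobsonRing k (A ⧸ m)
  have hbij : Function.Bijective (algebraMap k (A ⧸ m)) :=
    IsAlgClosed.algebraMap_bijective_of_isIntegral
  let e : k ≃ₐ[k] (A ⧸ m) := AlgEquiv.ofBijective (Algebra.ofId k (A ⧸ m)) hbij
  refine ⟨(e.symm : (A ⧸ m) →ₐ[k] k).comp (Ideal.Quotient.mkₐ k m), ?_⟩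
  intro h0
  apply ham
  have h4 : e.symm (Ideal.Quotient.mk m a) = 0 := h0
  rw [EmbeddingLike.map_eq_zero_iff] at h4
  exact Ideal.Quotient.eq_zero_iff_mem.1 h4

/-- The image of the spectrum of a domain of finite type over a noetherian subring contains a
nonempty open set. -/
theorem generic_point (T S : Type) [CommRing T] [CommRing S] [IsDomain S] [IsNoetherianRing T]
    (μ : T →+* S) (hμ : Function.Injective μ) (hft : μ.FiniteType) :
    ∃ b : T, b ≠ 0 ∧ ∀ P : PrimeSpectrum T, b ∉ P.asIdeal → ∃ q : PrimeSpectrum S,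
      PrimeSpectrum.comap μ q = P := by
  have h1 := PrimeSpectrum.isConstructible_range_comap (RingHom.FinitePresentation.of_finiteType.1 hft)
  obtain ⟨D, hD⟩ := PrimeSpectrum.exists_constructibleSetData_iff.2 h1
  have hTd : IsDomain T := hμ.isDomain μ
  let η : PrimeSpectrum S := ⟨⊥, Ideal.isPrime_bot⟩
  have h2 : PrimeSpectrum.comap μ η ∈ D.toSet := by
    rw [hD]
    exact ⟨η, rfl⟩
  unfold PrimeSpectrum.ConstructibleSetData.toSet at h2
  rw [Set.mem_iUnion₂] at h2
  obtain ⟨c, hc, h3⟩ := h2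
  have hη : ∀ t : T, t ∈ (PrimeSpectrum.comap μ η).asIdeal ↔ t = 0 := by
    intro t
    rw [PrimeSpectrum.comap_asIdeal, Ideal.mem_comap]
    show μ t ∈ (⊥ : Ideal S) ↔ t = 0
    rw [Ideal.mem_bot, map_eq_zero_iff μ hμ]
  unfold PrimeSpectrum.BasicConstructibleSetData.toSet at h3
  obtain ⟨h4, h5⟩ := h3
  rw [PrimeSpectrum.mem_zeroLocus] at h4 h5
  have hg : ∀ i, c.g i = 0 := fun i => (hη _).1 (h4 ⟨i, rfl⟩)
  have hf : c.f ≠ 0 := by
    intro h0
    apply h5
    rw [Set.singleton_subset_iff]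
    exact (hη _).2 h0
  refine ⟨c.f, hf, fun P hP => ?_⟩
  have h6 : P ∈ Set.range (PrimeSpectrum.comap μ) := by
    rw [← hD]
    unfold PrimeSpectrum.ConstructibleSetData.toSet
    rw [Set.mem_iUnion₂]
    refine ⟨c, hc, ?_⟩
    unfold PrimeSpectrum.BasicConstructibleSetData.toSet
    refine ⟨?_, ?_⟩
    · rw [PrimeSpectrum.mem_zeroLocus]
      rintro _ ⟨i, rfl⟩
      rw [hg i]
      exact P.asIdeal.zero_mem
    · rw [PrimeSpectrum.mem_zeroLocus, Set.singleton_subset_iff]
      exact hP
  exact h6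

/-- Injectivity on the tensor product from linear independence. -/
theorem tensor_inj (k K S : Type) [Field k] [Field K] [Algebra k K] [CommRing S] [Algebra K S]
    [Algebra k S] [IsScalarTower k K S] (A : Subalgebra k S)
    (h : ∀ (q : ℕ) (u : Fin q → S), (∀ i, u i ∈ A) → LinearIndependent k u →
      LinearIndependent K u) (μ : K ⊗[k] A →ₐ[K] S) (hμ : ∀ (c : K) (a : A), μ (c ⊗ₜ a) = c • (a : S)) :
    Function.Injective μ := by
  classical
  let e := Module.Basis.ofVectorSpace k A
  let E := Algebra.TensorProduct.basis K e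
  have h1 : LinearIndependent k (fun i => ((e i : A) : S)) := by
    have := e.linearIndependent
    exact this.map' A.val.toLinearMap (LinearMap.ker_eq_bot.2 Subtype.val_injective)
  have h2 : LinearIndependent K (fun i => ((e i : A) : S)) := by
    rw [linearIndependent_iff_finset_linearIndependent]
    intro s
    have h3 := (linearIndependent_iff_finset_linearIndependent.1 h1) s
    have h4 := h s.card (fun i => ((e (s.equivFin.symm i).1 : A) : S)) (fun i => (e _).2) (by
      exact h3.comp s.equivFin.symm s.equivFin.symm.injective)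
    have h5 := h4.comp s.equivFin s.equivFin.injective
    refine (linearIndependent_equiv' (Equiv.refl _) ?_).1 h5
    funext i
    simp
  have h3 : LinearIndependent K (μ.toLinearMap ∘ E) := by
    have : (μ.toLinearMap ∘ E) = fun i => ((e i : A) : S) := by
      funext i
      show μ (E i) = _
      rw [Algebra.TensorProduct.basis_apply, hμ, one_smul]
    rw [this]
    exact h2
  have h4 : μ.toLinearMap.ker = ⊥ := by
    rw [LinearMap.ker_eq_bot']
    intro x hx
    have h5 : Finsupp.linearCombination K (μ.toLinearMap ∘ E) (E.repr x) = 0 := by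
      rw [← Finsupp.apply_linearCombination, E.linearCombination_repr]
      exact hx
    have h6 := (linearIndependent_iff.1 h3) _ h5
    exact E.repr.map_eq_zero_iff.1 h6
  exact LinearMap.ker_eq_bot.1 h4

theorem t_POINT : S_POINT := by
  intro k K S _ _ _ _ _ _ _ _ _ hft N f hind
  classical
  obtain ⟨A, hA⟩ : ∃ A : Subalgebra k S, A = Algebra.adjoin k (Set.range f) := ⟨_, rfl⟩
  rw [← hA] at hind
  have hfA : ∀ j, f j ∈ A := fun j => by
    rw [hA]
    exact Algebra.subset_adjoin ⟨j, rfl⟩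
  haveI : Algebra.FiniteType k A := by
    rw [hA]
    rw [← Subalgebra.fg_iff_finiteType]
    exact ⟨(Set.finite_range f).toFinset, by rw [Set.Finite.coe_toFinset]⟩
  let μ : K ⊗[k] A →ₐ[K] S := Algebra.TensorProduct.lift (Algebra.ofId K S) A.val
    (fun _ _ => Commute.all _ _)
  have hμ : ∀ (c : K) (a : A), μ (c ⊗ₜ a) = c • (a : S) := by
    intro c a
    show Algebra.TensorProduct.lift (Algebra.ofId K S) A.val (fun _ _ => Commute.all _ _)
      (c ⊗ₜ a) = _
    rw [Algebra.TensorProduct.lift_tmul, Algebra.smul_def]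
    rfl
  have hinj : Function.Injective μ := tensor_inj k K S A hind μ hμ
  haveI : Algebra.FiniteType K (K ⊗[k] A) := inferInstance
  haveI : IsNoetherianRing (K ⊗[k] A) := Algebra.FiniteType.isNoetherianRing K _
  have hμft : (μ : K ⊗[k] A →+* S).FiniteType := by
    refine RingHom.FiniteType.of_comp_finiteType (f := algebraMap K (K ⊗[k] A)) ?_
    rw [show (μ : K ⊗[k] A →+* S).comp (algebraMap K (K ⊗[k] A)) = algebraMap K S from
      μ.comp_algebraMap]
    exact RingHom.finiteType_algebraMap.2 hft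
  obtain ⟨b, hb0, hb⟩ := generic_point (K ⊗[k] A) S (μ : K ⊗[k] A →+* S) hinj hμft
  -- a coordinate of `b` which does not vanish
  let e := Module.Basis.ofVectorSpace k K
  have h1 : (TensorProduct.equivFinsuppOfBasisLeft (N := A) e) b ≠ 0 := by
    rw [Ne, LinearEquiv.map_eq_zero_iff]
    exact hb0
  obtain ⟨i0, hi0⟩ := Finsupp.ne_iff.1 h1
  obtain ⟨p, hp⟩ := exists_point k A hi0
  let θ : K ⊗[k] A →ₐ[K] K := Algebra.TensorProduct.lift (AlgHom.id K K)
    ((Algebra.ofId k K).comp p) (fun _ _ => Commute.all _ _)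
  have hθ : ∀ (c : K) (a : A), θ (c ⊗ₜ a) = c * algebraMap k K (p a) := by
    intro c a
    show Algebra.TensorProduct.lift (AlgHom.id K K) ((Algebra.ofId k K).comp p)
      (fun _ _ => Commute.all _ _) (c ⊗ₜ a) = _
    rw [Algebra.TensorProduct.lift_tmul]
    rfl
  have hcoord : ∀ t : K ⊗[k] A, e.repr (θ t) i0 =
      p ((TensorProduct.equivFinsuppOfBasisLeft (N := A) e) t i0) := by
    intro t
    induction t with
    | zero => simp
    | tmul c a =>
      rw [hθ, TensorProduct.equivFinsuppOfBasisLeft_apply_tmul_apply, map_smul,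
        mul_comm, ← Algebra.smul_def, map_smul, Finsupp.smul_apply, smul_eq_mul, smul_eq_mul,
        mul_comm]
    | add x y hx hy =>
      rw [map_add, map_add, map_add, Finsupp.add_apply, Finsupp.add_apply, map_add, hx, hy]
  have hθb : θ b ≠ 0 := by
    intro h0
    have h2 := hcoord b
    rw [h0, map_zero, Finsupp.zero_apply] at h2
    exact hp h2.symm
  obtain ⟨q, hq⟩ := hb ⟨RingHom.ker (θ : K ⊗[k] A →+* K), RingHom.ker_isPrime _⟩ (by
    show b ∉ RingHom.ker (θ : K ⊗[k] A →+* K)
    rw [RingHom.mem_ker]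
    exact hθb)
  obtain ⟨m, hm, hqm⟩ := q.asIdeal.exists_le_maximal q.isPrime.ne_top
  letI : Field (S ⧸ m) := Ideal.Quotient.field m
  haveI : Algebra.FiniteType K (S ⧸ m) :=
    Algebra.FiniteType.of_surjective (Ideal.Quotient.mkₐ K m) (Ideal.Quotient.mkₐ_surjective K m)
  haveI : Module.Finite K (S ⧸ m) := finite_of_finite_type_of_isJacobsonRing K (S ⧸ m)
  let ι : (S ⧸ m) →ₐ[K] AlgebraicClosure K := IsAlgClosed.lift
  refine ⟨ι.comp (Ideal.Quotient.mkₐ K m), fun j => p ⟨f j, hfA j⟩, fun j => ?_⟩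
  have h2 : (1 : K) ⊗ₜ[k] (⟨f j, hfA j⟩ : A) - (algebraMap k K (p ⟨f j, hfA j⟩)) ⊗ₜ[k] (1 : A) ∈
      (PrimeSpectrum.comap (μ : K ⊗[k] A →+* S) q).asIdeal := by
    rw [hq]
    show _ ∈ RingHom.ker (θ : K ⊗[k] A →+* K)
    rw [RingHom.mem_ker]
    show θ _ = 0
    rw [map_sub, hθ, hθ, map_one, map_one, one_mul, mul_one, sub_self]
  rw [PrimeSpectrum.comap_asIdeal, Ideal.mem_comap] at h2
  have h3 : f j - algebraMap K S (algebraMap k K (p ⟨f j, hfA j⟩)) ∈ m := by
    apply hqm
    have h4 : (μ : K ⊗[k] A →+* S) ((1 : K) ⊗ₜ[k] (⟨f j, hfA j⟩ : A) -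
        (algebraMap k K (p ⟨f j, hfA j⟩)) ⊗ₜ[k] (1 : A)) =
        f j - algebraMap K S (algebraMap k K (p ⟨f j, hfA j⟩)) := by
      show μ _ = _
      rw [map_sub, hμ, hμ, one_smul, Algebra.smul_def]
      show f j - _ * (1 : S) = _
      rw [mul_one]
    rwa [h4] at h2
  have h5 : Ideal.Quotient.mk m (f j) =
      Ideal.Quotient.mk m (algebraMap K S (algebraMap k K (p ⟨f j, hfA j⟩))) :=
    Ideal.Quotient.eq.2 h3
  show ι (Ideal.Quotient.mk m (f j)) = _
  rw [h5]
  have h6 : Ideal.Quotient.mk m (algebraMap K S (algebraMap k K (p ⟨f j, hfA j⟩))) =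
      algebraMap K (S ⧸ m) (algebraMap k K (p ⟨f j, hfA j⟩)) := rfl
  rw [h6, AlgHom.commutes, ← IsScalarTower.algebraMap_apply]

end Pool.Agent.Y664.SD
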